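import Mathlib

/-! A Leonard triple on a three dimensional irreducible module for the equitable presentation of
the quantum group of rank one, for which the third element and its image under the antiautomorphism
are both outside the span of `I, Z, X, ZX`. -/

namespace Pool.Agent.Results.MP_a7ee28_al.DimThree

open Matrix

universe u v

/-- A square matrix is irreducible tridiagonal: entries off the three central diagonals vanish and
all entries directly above and directly below the main diagonal are nonzero. -/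
def IsIrredTridiagonal {K : Type u} [Field K] {n : ℕ} (M : Matrix (Fin n) (Fin n) K) : Prop :=
  (∀ i j : Fin n, (i : ℕ) + 1 < j ∨ (j : ℕ) + 1 < i → M i j = 0) ∧
    ∀ i j : Fin n, (i : ℕ) + 1 = j → M i j ≠ 0 ∧ M j i ≠ 0

section Defs

variable {K : Type u} [Field K] {V : Type v} [AddCommGroup V] [Module K V]

/-- `A, B` is a Leonard pair on `V`. -/
def IsLeonardPair (A B : Module.End K V) : Prop :=
  (∃ (n : ℕ) (b : Module.Basis (Fin n) K V), IsIrredTridiagonal (LinearMap.toMatrix b b A) ∧
      (LinearMap.toMatrix b b B).IsDiag) ∧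
    ∃ (n : ℕ) (b : Module.Basis (Fin n) K V), IsIrredTridiagonal (LinearMap.toMatrix b b B) ∧
      (LinearMap.toMatrix b b A).IsDiag

/-- There is a basis in which `X` is diagonal while `Y` and `Z` are irreducible tridiagonal. -/
def HasLeonardBasis (X Y Z : Module.End K V) : Prop :=
  ∃ (n : ℕ) (b : Module.Basis (Fin n) K V), (LinearMap.toMatrix b b X).IsDiag ∧
    IsIrredTridiagonal (LinearMap.toMatrix b b Y) ∧ IsIrredTridiagonal (LinearMap.toMatrix b b Z)

/-- `A, B, C` is a Leonard triple on `V`. -/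
def IsLeonardTriple (A B C : Module.End K V) : Prop :=
  HasLeonardBasis A B C ∧ HasLeonardBasis B A C ∧ HasLeonardBasis C A B

/-- The relations of the equitable presentation, with `Xi` in the role of the inverse of `X`. -/
structure IsEquitable (q : K) (X Xi Y Z : Module.End K V) : Prop where
  mul_inv : X * Xi = 1
  inv_mul : Xi * X = 1
  rel_xy : (q - q⁻¹)⁻¹ • (q • (X * Y) - q⁻¹ • (Y * X)) = 1
  rel_yz : (q - q⁻¹)⁻¹ • (q • (Y * Z) - q⁻¹ • (Z * Y)) = 1
  rel_zx : (q - q⁻¹)⁻¹ • (q • (Z * X) - q⁻¹ • (X * Z)) = 1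

/-- The module on which the generators act by `X, Xi, Y, Z` is irreducible. -/
def IsIrreducible (X Xi Y Z : Module.End K V) : Prop :=
  Nontrivial V ∧ ∀ W : Submodule K V, (∀ v ∈ W, X v ∈ W ∧ Xi v ∈ W ∧ Y v ∈ W ∧ Z v ∈ W) →
    W = ⊥ ∨ W = ⊤

/-- The span of `I, P, Q, PQ`. -/
def spanFour (P Q : Module.End K V) : Submodule K (Module.End K V) :=
  Submodule.span K {1, P, Q, P * Q}

/-- `σ` is an antiautomorphism fixing `A` and `B`. -/
def FixesPair (A B : Module.End K V) (σ : Module.End K V ≃ₐ[K] (Module.End K V)ᵐᵒᵖ) : Prop :=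
  σ A = MulOpposite.op A ∧ σ B = MulOpposite.op B

/-- The hypotheses of the question: `q` is nonzero and not a root of unity, `X, Xi, Y, Z` make `V`
an irreducible module, `A, B, C` is a Leonard triple (so that `A, B` is a Leonard pair), `A` is a
combination of `I, X, Y, XY` and `B` is a combination of `I, Y, Z, YZ`. -/
structure Setting (q : K) (X Xi Y Z A B C : Module.End K V) : Prop where
  ne_zero : q ≠ 0
  pow_ne_one : ∀ n : ℕ, 0 < n → q ^ n ≠ 1
  equitable : IsEquitable q X Xi Y Z
  irreducible : IsIrreducible X Xi Y Z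
  pair : IsLeonardPair A B
  triple : IsLeonardTriple A B C
  memA : A ∈ spanFour X Y
  memB : B ∈ spanFour Y Z

end Defs

lemma exists_basis {K : Type u} [Field K] {n : ℕ} (P Q : Matrix (Fin n) (Fin n) K)
    (h : P * Q = 1) : ∃ b : Module.Basis (Fin n) K (Fin n → K), ∀ M : Matrix (Fin n) (Fin n) K,
      LinearMap.toMatrix b b (Matrix.toLin' M) = Q * M * P := by
  have h' : Q * P = 1 := mul_eq_one_comm.mp h
  let e : (Fin n → K) ≃ₗ[K] (Fin n → K) := Matrix.toLin'OfInv h' h
  have he : ∀ v, e v = P *ᵥ v := fun v => rfl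
  have he' : ∀ v, e.symm v = Q *ᵥ v := fun v => rfl
  refine ⟨(Pi.basisFun K (Fin n)).map e, fun M => ?_⟩
  rw [← LinearMap.toMatrix'_toLin' (R := K) (Q * M * P)]
  ext i j
  rw [LinearMap.toMatrix_apply, LinearMap.toMatrix'_apply]
  simp [he, he', Matrix.mul_assoc]

/-- The linear map over `K` given by a rational matrix. -/
noncomputable def act (K : Type u) [Field K] [CharZero K] (M : Matrix (Fin 3) (Fin 3) ℚ) :
    Module.End K (Fin 3 → K) :=
  Matrix.toLin' (M.map (algebraMap ℚ K))

section Act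

variable (K : Type u) [Field K] [CharZero K]

lemma act_mul (M N : Matrix (Fin 3) (Fin 3) ℚ) : act K (M * N) = act K M * act K N := by
  unfold act
  rw [Matrix.map_mul, Matrix.toLin'_mul]
  rfl

lemma act_one : act K 1 = 1 := by
  unfold act
  rw [Matrix.map_one _ (map_zero _) (map_one _), Matrix.toLin'_one]
  rfl

lemma act_add (M N : Matrix (Fin 3) (Fin 3) ℚ) : act K (M + N) = act K M + act K N := by
  unfold act
  rw [Matrix.map_add _ (map_add _), map_add]

lemma act_smul (c : ℚ) (M : Matrix (Fin 3) (Fin 3) ℚ) :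
    act K (c • M) = (c : K) • act K M := by
  unfold act
  rw [← map_smul]
  congr 1
  ext i j
  simp

lemma act_sub (M N : Matrix (Fin 3) (Fin 3) ℚ) : act K (M - N) = act K M - act K N := by
  unfold act
  rw [Matrix.map_sub _ (map_sub _), map_sub]

lemma act_apply (M : Matrix (Fin 3) (Fin 3) ℚ) (v : Fin 3 → K) (i : Fin 3) :
    act K M v i = (M i 0 : K) * v 0 + ((M i 1 : K) * v 1 + (M i 2 : K) * v 2) := by
  unfold act
  simp [Matrix.toLin'_apply, Matrix.mulVec, dotProduct, Fin.sum_univ_succ]

/-- A basis in which one map is diagonal and two others are irreducible tridiagonal, from explicit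
rational matrices. -/
lemma leonard_of (X Y Z P Q X' Y' Z' : Matrix (Fin 3) (Fin 3) ℚ) (h : P * Q = 1)
    (hX : Q * X * P = X') (hY : Q * Y * P = Y') (hZ : Q * Z * P = Z')
    (hX' : ∀ i j, i ≠ j → X' i j = 0)
    (hY' : (∀ i j : Fin 3, (i : ℕ) + 1 < j ∨ (j : ℕ) + 1 < i → Y' i j = 0) ∧
      ∀ i j : Fin 3, (i : ℕ) + 1 = j → Y' i j ≠ 0 ∧ Y' j i ≠ 0)
    (hZ' : (∀ i j : Fin 3, (i : ℕ) + 1 < j ∨ (j : ℕ) + 1 < i → Z' i j = 0) ∧
      ∀ i j : Fin 3, (i : ℕ) + 1 = j → Z' i j ≠ 0 ∧ Z' j i ≠ 0) :
    HasLeonardBasis (act K X) (act K Y) (act K Z) := by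
  have h1 : P.map (algebraMap ℚ K) * Q.map (algebraMap ℚ K) = 1 := by
    rw [← Matrix.map_mul, h, Matrix.map_one _ (map_zero _) (map_one _)]
  obtain ⟨B, hB⟩ := exists_basis _ _ h1
  have key : ∀ M M' : Matrix (Fin 3) (Fin 3) ℚ, Q * M * P = M' →
      LinearMap.toMatrix B B (act K M) = M'.map (algebraMap ℚ K) := by
    intro M M' e
    rw [← e, act, hB, Matrix.map_mul, Matrix.map_mul]
  have tri : ∀ M' : Matrix (Fin 3) (Fin 3) ℚ,
      ((∀ i j : Fin 3, (i : ℕ) + 1 < j ∨ (j : ℕ) + 1 < i → M' i j = 0) ∧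
      ∀ i j : Fin 3, (i : ℕ) + 1 = j → M' i j ≠ 0 ∧ M' j i ≠ 0) →
      IsIrredTridiagonal (M'.map (algebraMap ℚ K)) := by
    intro M' hM
    refine ⟨fun i j hij => ?_, fun i j hij => ⟨?_, ?_⟩⟩
    · rw [Matrix.map_apply, hM.1 i j hij, map_zero]
    · rw [Matrix.map_apply]
      exact (map_ne_zero _).mpr (hM.2 i j hij).1
    · rw [Matrix.map_apply]
      exact (map_ne_zero _).mpr (hM.2 i j hij).2
  refine ⟨3, B, ?_, ?_, ?_⟩
  · rw [key _ _ hX]
    intro i j hij
    rw [Matrix.map_apply, hX' i j hij, map_zero]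
  · rw [key _ _ hY]
    exact tri _ hY'
  · rw [key _ _ hZ]
    exact tri _ hZ'

end Act

def mX : Matrix (Fin 3) (Fin 3) ℚ := !![4, 0, 0; 0, 1, 0; 0, 0, 1/4]
def mXi : Matrix (Fin 3) (Fin 3) ℚ := !![1/4, 0, 0; 0, 1, 0; 0, 0, 4]
def mY : Matrix (Fin 3) (Fin 3) ℚ := !![1/4, 0, 0; 1, 1, 0; 0, 1, 4]
def mZ : Matrix (Fin 3) (Fin 3) ℚ := !![1/4, -45/16, 0; 0, 1, -45/4; 0, 0, 4]
def mA : Matrix (Fin 3) (Fin 3) ℚ := !![2275, 0, 0; -120, 175, 0; 0, 30, -125]
def mB : Matrix (Fin 3) (Fin 3) ℚ := !![-305, -1935, 0; 48, 535, -6660; 0, -48, 2095]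
def mC : Matrix (Fin 3) (Fin 3) ℚ := !![99, 1935, 0; 72, 1359, 6660; 0, 18, 99]

lemma triple (K : Type u) [Field K] [CharZero K] :
    IsLeonardTriple (act K mA) (act K mB) (act K mC) := by
  refine ⟨?_, ?_, ?_⟩
  · apply leonard_of K mA mB mC !![0, 0, -1400; 0, 10, 80; 1, 1, 1]
      !![-1/200, -1/10, 1; 1/175, 1/10, 0; -1/1400, 0, 0]
      !![-125, 0, 0; 0, 175, 0; 0, 0, 2275]
      !![2761, 7371/4, 0; -666, -1691/7, -10854/7; 0, 387/28, -1361/7]
      !![-567, -7371/4, 0; 666, 14949/7, 10854/7; 0, -387/28, -81/7]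
    all_goals first
      | decide +kernel
      | (intro i j; fin_cases i <;> fin_cases j <;> decide +kernel)
      | (constructor <;> intro i j <;> fin_cases i <;> fin_cases j <;> decide +kernel)
  · apply leonard_of K mB mA mC !![45, -645, -7955; -60, 160, 740; 16, 4, 16]
      !![-1/35000, -43/28000, 1591/28000; 4/4375, 8/875, 111/3500; -1/5000, -3/4000, -9/4000]
      !![2275, 0, 0; 0, 175, 0; 0, 0, -125]
      !![-1361/7, 3483/28, 0; -1206/7, -1691/7, -5994; 0, 819/4, 2761]
      !![-81/7, -3483/28, 0; 1206/7, 14949/7, 5994; 0, -819/4, -567]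
    all_goals first
      | decide +kernel
      | (intro i j; fin_cases i <;> fin_cases j <;> decide +kernel)
      | (constructor <;> intro i j <;> fin_cases i <;> fin_cases j <;> decide +kernel)
  · apply leonard_of K mC mA mB !![215, 215, -185; 160, -20, 0; 2, 2, 2]
      !![1/3600, 1/180, 37/1440; 1/450, -1/180, 37/180; -1/400, 0, 43/160]
      !![1539, 0, 0; 0, -81, 0; 0, 0, 99]
      !![265, -195/4, 0; 2010, 1075, -1110; 0, -5805/4, 985]
      !![265, 195/4, 0; -2010, 1075, 1110; 0, 5805/4, 985]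
    all_goals first
      | decide +kernel
      | (intro i j; fin_cases i <;> fin_cases j <;> decide +kernel)
      | (constructor <;> intro i j <;> fin_cases i <;> fin_cases j <;> decide +kernel)

lemma irreducible (K : Type u) [Field K] [CharZero K] :
    IsIrreducible (act K mX) (act K mXi) (act K mY) (act K mZ) := by
  refine ⟨inferInstance, fun W hW => ?_⟩
  by_cases hbot : W = ⊥
  · exact Or.inl hbot
  right
  obtain ⟨v, hv, hv0⟩ := Submodule.exists_mem_ne_zero_of_ne_bot hbot
  -- projections onto the coordinate lines are polynomials in X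
  have proj : ∀ (k : Fin 3) (w : Fin 3 → K), w ∈ W → Pi.single k (w k) ∈ W := by
    intro k w hw
    have h1 := (hW w hw).1
    have h2 := (hW _ h1).1
    have key : ∀ a b c : ℚ, a • (mX * mX) + b • mX + c • 1
        = Matrix.of (fun i j => if i = k ∧ j = k then (1 : ℚ) else 0) →
        Pi.single k (w k) = (a : K) • act K mX (act K mX w) + (b : K) • act K mX w
          + (c : K) • w := by
      intro a b c h
      have h3 := congrArg (fun M => act K M w) h
      simp only [act_add, act_smul, act_mul, act_one, LinearMap.add_apply, LinearMap.smul_apply,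
        Module.End.mul_apply, Module.End.one_apply] at h3
      rw [h3]
      ext i
      rw [act_apply]
      fin_cases k <;> fin_cases i <;> simp
    have fin : ∀ a b c : ℚ, Pi.single k (w k) = (a : K) • act K mX (act K mX w)
        + (b : K) • act K mX w + (c : K) • w → Pi.single k (w k) ∈ W := by
      intro a b c h
      rw [h]
      exact W.add_mem (W.add_mem (W.smul_mem _ h2) (W.smul_mem _ h1)) (W.smul_mem _ hw)
    fin_cases k
    · exact fin _ _ _ (key (4/45) (-5/45) (1/45) (by decide +kernel))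
    · exact fin _ _ _ (key (-4/9) (17/9) (-4/9) (by decide +kernel))
    · exact fin _ _ _ (key (16/45) (-80/45) (64/45) (by decide +kernel))
  have scale : ∀ (k : Fin 3) (t : K), t ≠ 0 → Pi.single k t ∈ W → (Pi.single k 1 : Fin 3 → K) ∈ W := by
    intro k t ht h
    have h' := W.smul_mem t⁻¹ h
    convert h' using 1
    ext i
    fin_cases k <;> fin_cases i <;> simp [ht]
  have move : ∀ (k l : Fin 3) (M : Matrix (Fin 3) (Fin 3) ℚ), M l k ≠ 0 →
      (∀ w ∈ W, act K M w ∈ W) → (Pi.single k 1 : Fin 3 → K) ∈ W →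
      (Pi.single l 1 : Fin 3 → K) ∈ W := by
    intro k l M hM hMW h
    have h1 := proj l _ (hMW _ h)
    apply scale l _ _ h1
    have e : act K M (Pi.single k 1) l = (M l k : K) := by
      rw [act_apply]
      fin_cases k <;> simp
    rw [e]
    exact_mod_cast hM
  have hYW : ∀ w ∈ W, act K mY w ∈ W := fun w hw => (hW w hw).2.2.1
  have hZW : ∀ w ∈ W, act K mZ w ∈ W := fun w hw => (hW w hw).2.2.2
  have mid : (Pi.single 1 1 : Fin 3 → K) ∈ W := by
    by_cases h0 : v 0 = 0
    · by_cases h1 : v 1 = 0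
      · have h2 : v 2 ≠ 0 := by
          intro h2
          apply hv0
          ext i
          fin_cases i <;> simp [h0, h1, h2]
        exact move 2 1 mZ (by decide +kernel) hZW (scale 2 _ h2 (proj 2 v hv))
      · exact scale 1 _ h1 (proj 1 v hv)
    · exact move 0 1 mY (by decide +kernel) hYW (scale 0 _ h0 (proj 0 v hv))
  have e0 := move 1 0 mZ (by decide +kernel) hZW mid
  have e2 := move 1 2 mY (by decide +kernel) hYW mid
  rw [Submodule.eq_top_iff']
  intro w
  have h := W.add_mem (W.smul_mem (w 0) e0) (W.add_mem (W.smul_mem (w 1) mid)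
    (W.smul_mem (w 2) e2))
  convert h using 1
  ext i
  fin_cases i <;> simp

/-- The entry in row 1 and column 0 vanishes on the span of `I, Z, X, ZX` but not on `C`. -/
lemma notMem (K : Type u) [Field K] [CharZero K] :
    act K mC ∉ Submodule.span K {(1 : Module.End K (Fin 3 → K)), act K mZ, act K mX,
      act K mZ * act K mX} := by
  intro h
  let φ : Module.End K (Fin 3 → K) →ₗ[K] K :=
    { toFun := fun f => f (Pi.single 0 1) 1
      map_add' := fun f g => by simp
      map_smul' := fun c f => by simp }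
  have hφ : ∀ f, φ f = f (Pi.single 0 1) 1 := fun f => rfl
  have hφ' : ∀ M, φ (act K M) = (M 1 0 : K) := by
    intro M
    rw [hφ, act_apply]
    simp
  have hle : Submodule.span K {(1 : Module.End K (Fin 3 → K)), act K mZ, act K mX,
      act K mZ * act K mX} ≤ LinearMap.ker φ := by
    rw [← act_mul, ← act_one, Submodule.span_le]
    intro x hx
    simp only [Set.mem_insert_iff, Set.mem_singleton_iff] at hx
    rcases hx with rfl | rfl | rfl | rfl
    · have e : (1 : Matrix (Fin 3) (Fin 3) ℚ) 1 0 = 0 := by decide +kernel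
      rw [SetLike.mem_coe, LinearMap.mem_ker, hφ', e, Rat.cast_zero]
    · have e : mZ 1 0 = 0 := by decide +kernel
      rw [SetLike.mem_coe, LinearMap.mem_ker, hφ', e, Rat.cast_zero]
    · have e : mX 1 0 = 0 := by decide +kernel
      rw [SetLike.mem_coe, LinearMap.mem_ker, hφ', e, Rat.cast_zero]
    · have e : (mZ * mX) 1 0 = 0 := by decide +kernel
      rw [SetLike.mem_coe, LinearMap.mem_ker, hφ', e, Rat.cast_zero]
  have h1 := hle h
  rw [LinearMap.mem_ker, hφ'] at h1
  have e : mC 1 0 = 72 := by decide +kernel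
  rw [e] at h1
  norm_num at h1

lemma mem_span_four {K : Type u} [Field K] {M : Type v} [AddCommGroup M] [Module K M]
    (x a b c d : M) (r s t w : K) (h : x = r • a + s • b + t • c + w • d) :
    x ∈ Submodule.span K {a, b, c, d} := by
  rw [h]
  refine add_mem (add_mem (add_mem ?_ ?_) ?_) ?_ <;>
    exact Submodule.smul_mem _ _ (Submodule.subset_span (by simp))

/-- An antiautomorphism: transposition followed by conjugation. -/
noncomputable def anti (K : Type u) [Field K] [CharZero K]
    (S T : Matrix (Fin 3) (Fin 3) K) (h : S * T = 1) (h' : T * S = 1) :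
    Module.End K (Fin 3 → K) ≃ₐ[K] (Module.End K (Fin 3 → K))ᵐᵒᵖ :=
  (LinearMap.toMatrixAlgEquiv'.trans (Matrix.transposeAlgEquiv (Fin 3) K K)).trans
    (AlgEquiv.op (Matrix.toLinAlgEquiv'.trans
      ((Matrix.toLin'OfInv (M := T) (M' := S) h' h).conjAlgEquiv K)))

lemma anti_act (K : Type u) [Field K] [CharZero K]
    (S T : Matrix (Fin 3) (Fin 3) ℚ) (h : S.map (algebraMap ℚ K) * T.map (algebraMap ℚ K) = 1)
    (h' : T.map (algebraMap ℚ K) * S.map (algebraMap ℚ K) = 1) (M : Matrix (Fin 3) (Fin 3) ℚ)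
    (hM : S * Mᵀ * T = M) : anti K _ _ h h' (act K M) = MulOpposite.op (act K M) := by
  have e : anti K _ _ h h' (act K M) = MulOpposite.op (Matrix.toLin'
      (S.map (algebraMap ℚ K) * (M.map (algebraMap ℚ K))ᵀ * T.map (algebraMap ℚ K))) := by
    unfold anti act
    have e1 : LinearMap.toMatrixAlgEquiv' (Matrix.toLin' (M.map (algebraMap ℚ K)))
        = M.map (algebraMap ℚ K) := LinearMap.toMatrix'_toLin' _
    rw [AlgEquiv.trans_apply, AlgEquiv.trans_apply, e1]
    change MulOpposite.op ((Matrix.toLin'OfInv h' h).conjAlgEquiv K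
      (Matrix.toLin' (M.map (algebraMap ℚ K))ᵀ)) = _
    apply congrArg MulOpposite.op
    rw [Matrix.toLin'_mul, Matrix.toLin'_mul]
    rfl
  rw [e, ← Matrix.transpose_map, ← Matrix.map_mul, ← Matrix.map_mul, hM]
  rfl

/-- Over every field of characteristic zero there is an irreducible three dimensional module for
the equitable presentation and a Leonard triple `A, B, C` on it with `A` in the span of
`I, X, Y, XY` and `B` in the span of `I, Y, Z, YZ`, while `C` is outside the span of
`I, Z, X, ZX`, and so is the image of `C` under every antiautomorphism fixing `A` and `B`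
(and such antiautomorphisms exist). -/
theorem result (K : Type u) [Field K] [CharZero K] :
    ∃ (q : K) (X Xi Y Z A B C : Module.End K (Fin 3 → K)), Setting q X Xi Y Z A B C ∧
      C ∉ spanFour Z X ∧ (∃ σ, FixesPair A B σ) ∧
      ∀ σ, FixesPair A B σ → (σ C).unop ∉ spanFour Z X := by
  have hS : (!![11137000, -636400, -7955; -636400, -27380, -5920; -7955, -5920, 1132] :
      Matrix (Fin 3) (Fin 3) ℚ) * !![4/75842325, -8/13051935, -1/352755;
      -8/13051935, -523/52207740, -4/70551; -1/352755, -4/70551, 40/70551] = 1 := by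
    decide +kernel
  have hS' : (!![4/75842325, -8/13051935, -1/352755;
      -8/13051935, -523/52207740, -4/70551; -1/352755, -4/70551, 40/70551] :
      Matrix (Fin 3) (Fin 3) ℚ) *
      !![11137000, -636400, -7955; -636400, -27380, -5920; -7955, -5920, 1132] = 1 := by
    decide +kernel
  have hSK := congrArg (fun M => M.map (algebraMap ℚ K)) hS
  have hSK' := congrArg (fun M => M.map (algebraMap ℚ K)) hS'
  simp only [Matrix.map_mul, Matrix.map_one _ (map_zero (algebraMap ℚ K))
    (map_one (algebraMap ℚ K))] at hSK hSK'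
  have hA : mA = (-425 : ℚ) • 1 + (720 : ℚ) • mX + (80 : ℚ) • mY + (-200 : ℚ) • (mX * mY) := by
    decide +kernel
  have hB : mB = (-497 : ℚ) • 1 + (80 : ℚ) • mY + (720 : ℚ) • mZ + (-128 : ℚ) • (mY * mZ) := by
    decide +kernel
  have hC : mC = (2069 : ℚ) • 1 - mA - mB := by
    decide +kernel
  have hT := triple K
  refine ⟨2, act K mX, act K mXi, act K mY, act K mZ, act K mA, act K mB, act K mC,
    ⟨two_ne_zero, ?_, ?_, irreducible K, ?_, hT, ?_, ?_⟩, notMem K, ?_, ?_⟩
  · intro n hn
    have h1 : (2 : ℕ) ^ n ≠ 1 := (Nat.one_lt_two_pow hn.ne').ne'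
    exact_mod_cast h1
  · have hcoef : ((2 : K) - 2⁻¹)⁻¹ = ((2/3 : ℚ) : K) := by
      push_cast
      norm_num
    have h2 : (2 : K) = ((2 : ℚ) : K) := by push_cast; rfl
    have h2' : (2 : K)⁻¹ = ((1/2 : ℚ) : K) := by push_cast; norm_num
    refine ⟨?_, ?_, ?_, ?_, ?_⟩
    · rw [← act_mul, ← act_one]
      congr 1
      decide +kernel
    · rw [← act_mul, ← act_one]
      congr 1
      decide +kernel
    · rw [hcoef, h2', h2, ← act_mul, ← act_mul, ← act_smul, ← act_smul, ← act_sub, ← act_smul,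
        ← act_one]
      congr 1
      decide +kernel
    · rw [hcoef, h2', h2, ← act_mul, ← act_mul, ← act_smul, ← act_smul, ← act_sub, ← act_smul,
        ← act_one]
      congr 1
      decide +kernel
    · rw [hcoef, h2', h2, ← act_mul, ← act_mul, ← act_smul, ← act_smul, ← act_sub, ← act_smul,
        ← act_one]
      congr 1
      decide +kernel
  · obtain ⟨n, b, h1, h2, -⟩ := hT.1
    obtain ⟨n', b', h1', h2', -⟩ := hT.2.1
    exact ⟨⟨n', b', h2', h1'⟩, ⟨n, b, h2, h1⟩⟩
  · exact mem_span_four _ _ _ _ _ ((-425 : ℚ) : K) ((720 : ℚ) : K) ((80 : ℚ) : K)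
      ((-200 : ℚ) : K) (by
        conv_lhs => rw [hA]
        simp only [act_add, act_smul, act_mul, act_one])
  · exact mem_span_four _ _ _ _ _ ((-497 : ℚ) : K) ((80 : ℚ) : K) ((720 : ℚ) : K)
      ((-128 : ℚ) : K) (by
        conv_lhs => rw [hB]
        simp only [act_add, act_smul, act_mul, act_one])
  · exact ⟨anti K _ _ hSK hSK', anti_act K _ _ hSK hSK' mA (by decide +kernel),
      anti_act K _ _ hSK hSK' mB (by decide +kernel)⟩
  · rintro σ ⟨h1, h2⟩
    have h3 : σ (act K mC) = MulOpposite.op (act K mC) := by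
      rw [hC, act_sub, act_sub, act_smul, act_one, map_sub, map_sub, map_smul, map_one, h1, h2]
      rfl
    rw [h3, MulOpposite.unop_op]
    exact notMem K

end Pool.Agent.Results.MP_a7ee28_al.DimThree
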